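import Mathlib

/-!
# Bowen entropy need not be hereditarily lowerable

For the full shift over a Cantor alphabet (`G = Z`, `F_n = {0, ..., n}`) we construct a compact
set `K` of infinite Bowen entropy all of whose subsets have Bowen entropy `0` or infinity.
The `k`-th layer of the letter at time `t` of the point `pt y` is the block of `y` on
`[2^k t, 2^k (t+1))`: at a finer scale the same sequence is read at a higher speed.
-/

open Set Filter Topology MeasureTheory
open scoped ENNReal NNReal Pointwise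

namespace Pool.Agent.Results.MP_4cf0b2_an.NotHereditarilyLowerable

section Definitions

variable {G : Type} {X : Type}

/-- The Bowen ball `B_F(x, ε)`: all `y` with `d(gx, gy) < ε` for all `g` in `F`. -/
def ball' [Group G] [MetricSpace X] [MulAction G X] (F : Finset G) (x : X) (ε : ℝ) : Set X :=
  {y | ∀ g ∈ F, dist (g • x) (g • y) < ε}

/-- `M(Z, N, ε, s)`: the infimum of `∑ exp (-s |F_{n_i}|)` over all countable families of Bowen
balls `B_{F_{n_i}}(x_i, ε)` which cover `Z` and have all `n_i ≥ N`. -/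
noncomputable def coverSum [Group G] [MetricSpace X] [MulAction G X] (F : ℕ → Finset G)
    (Z : Set X) (N : ℕ) (ε s : ℝ) : ℝ≥0∞ :=
  ⨅ (I : Type) (_ : Countable I) (x : I → X) (n : I → ℕ) (_ : ∀ i, N ≤ n i)
    (_ : Z ⊆ ⋃ i, ball' (F (n i)) (x i) ε),
    ∑' i, ENNReal.ofReal (Real.exp (-(s * ((F (n i)).card : ℝ))))

/-- `M(Z, ε, s) = lim_N M(Z, N, ε, s)` (a supremum: the sequence is nondecreasing in `N`). -/
noncomputable def coverLim [Group G] [MetricSpace X] [MulAction G X] (F : ℕ → Finset G)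
    (Z : Set X) (ε s : ℝ) : ℝ≥0∞ :=
  ⨆ N : ℕ, coverSum F Z N ε s

/-- `h^B(Z, ε)`, the infimum of all `s ≥ 0` with `M(Z, ε, s) = 0`. -/
noncomputable def bowenAt [Group G] [MetricSpace X] [MulAction G X] (F : ℕ → Finset G)
    (Z : Set X) (ε : ℝ) : ℝ≥0∞ :=
  ⨅ (s : ℝ≥0) (_ : coverLim F Z ε s = 0), (s : ℝ≥0∞)

/-- The Bowen entropy `h^B_top(Z, {F_n})`, the limit of `h^B(Z, ε)` as `ε → 0`
(a supremum: `h^B(Z, ε)` is nonincreasing in `ε`). -/
noncomputable def bowenEntropy [Group G] [MetricSpace X] [MulAction G X] (F : ℕ → Finset G)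
    (Z : Set X) : ℝ≥0∞ :=
  ⨆ (ε : ℝ) (_ : 0 < ε), bowenAt F Z ε

/-- A tempered Folner sequence with `|F_n| / log n → ∞`. -/
structure Admissible [Group G] [DecidableEq G] (F : ℕ → Finset G) : Prop where
  nonempty : ∀ n, (F n).Nonempty
  folner : ∀ a : G, Tendsto (fun n => ((symmDiff (F n) (a • F n)).card : ℝ) / ((F n).card : ℝ))
    atTop (𝓝 0)
  tempered : ∃ C : ℝ, 0 < C ∧ ∀ n : ℕ, 1 < n →
    ((((Finset.range n).biUnion fun k => (F k)⁻¹ * F n).card : ℕ) : ℝ) ≤ C * ((F n).card : ℝ)
  growth : Tendsto (fun n : ℕ => ((F n).card : ℝ) / Real.log n) atTop atTop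

/-- `(X, G)` is D-hereditarily lowerable along `{F_n}`: every nonempty analytic `K` has, for
each `0 ≤ h ≤ h^B_top(K, {F_n})`, a subset of Bowen entropy `h`. -/
def DHereditarilyLowerable [Group G] [MetricSpace X] [MulAction G X] (F : ℕ → Finset G) : Prop :=
  ∀ K : Set X, K.Nonempty → AnalyticSet K → ∀ h : ℝ≥0∞, h ≤ bowenEntropy F K →
    ∃ K' : Set X, K' ⊆ K ∧ bowenEntropy F K' = h

/-- The interval `{0, ..., n}` in the group of integers (written multiplicatively). -/
noncomputable def Fz (n : ℕ) : Finset (Multiplicative ℤ) :=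
  (Finset.Icc (0 : ℤ) n).image Multiplicative.ofAdd

end Definitions

/-! ### The intervals form an admissible Folner sequence -/

theorem mem_Fz {n : ℕ} {g : Multiplicative ℤ} :
    g ∈ Fz n ↔ 0 ≤ Multiplicative.toAdd g ∧ Multiplicative.toAdd g ≤ n := by
  unfold Fz
  rw [Finset.mem_image]
  constructor
  · rintro ⟨a, ha, rfl⟩
    exact Finset.mem_Icc.1 ha
  · intro h
    exact ⟨Multiplicative.toAdd g, Finset.mem_Icc.2 h, rfl⟩

theorem card_Fz (n : ℕ) : (Fz n).card = n + 1 := by
  unfold Fz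
  rw [Finset.card_image_of_injective _ Multiplicative.ofAdd.injective, Int.card_Icc]
  omega

theorem card_image_Icc (a b : ℤ) :
    ((Finset.Icc a b).image Multiplicative.ofAdd).card = (b + 1 - a).toNat := by
  rw [Finset.card_image_of_injective _ Multiplicative.ofAdd.injective, Int.card_Icc]

theorem admissible_Fz : Admissible Fz := by
  refine ⟨fun n => ?_, fun a => ?_, ⟨2, by norm_num, fun n hn => ?_⟩, ?_⟩
  · exact Finset.card_pos.1 (by rw [card_Fz]; omega)
  · -- Folner
    set m : ℤ := |Multiplicative.toAdd a| with hm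
    have hsub : ∀ n : ℕ, symmDiff (Fz n) (a • Fz n) ⊆
        (Finset.Icc (-m) m).image Multiplicative.ofAdd ∪
          (Finset.Icc ((n : ℤ) - m) (n + m)).image Multiplicative.ofAdd := by
      intro n x hx
      rw [Finset.mem_symmDiff, Finset.mem_smul_finset, mem_Fz] at hx
      have key : (∃ y ∈ Fz n, a • y = x) ↔
          0 ≤ Multiplicative.toAdd x - Multiplicative.toAdd a ∧
            Multiplicative.toAdd x - Multiplicative.toAdd a ≤ n := by
        constructor
        · rintro ⟨y, hy, rfl⟩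
          rw [mem_Fz] at hy
          simpa [smul_eq_mul, toAdd_mul] using hy
        · intro h
          refine ⟨a⁻¹ * x, ?_, by simp [smul_eq_mul]⟩
          rw [mem_Fz, toAdd_mul, toAdd_inv]
          constructor <;> linarith [h.1, h.2]
      rw [key] at hx
      rw [Finset.mem_union, Finset.mem_image, Finset.mem_image]
      have h1 := abs_le.1 (le_refl m)
      have h2 : Multiplicative.toAdd a ≤ m := le_abs_self _
      have h3 : -m ≤ Multiplicative.toAdd a := neg_abs_le _
      by_cases hc : -m ≤ Multiplicative.toAdd x ∧ Multiplicative.toAdd x ≤ m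
      · exact Or.inl ⟨Multiplicative.toAdd x, Finset.mem_Icc.2 hc, rfl⟩
      · refine Or.inr ⟨Multiplicative.toAdd x, Finset.mem_Icc.2 ?_, rfl⟩
        omega
    have hcard : ∀ n : ℕ, ((symmDiff (Fz n) (a • Fz n)).card : ℝ) / ((Fz n).card : ℝ) ≤
        (4 * m + 2) * (1 / ((n : ℝ) + 1)) := by
      intro n
      have h1 := Finset.card_le_card (hsub n)
      have h2 := h1.trans (Finset.card_union_le _ _)
      rw [card_image_Icc, card_image_Icc] at h2
      have hm0 : 0 ≤ m := abs_nonneg _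
      have h3 : (((m + 1 - -m).toNat + ((n : ℤ) + m + 1 - (n - m)).toNat : ℕ) : ℤ) = 4 * m + 2 := by
        push_cast
        rw [Int.toNat_of_nonneg (by omega), Int.toNat_of_nonneg (by omega)]
        ring
      have h4 : (((symmDiff (Fz n) (a • Fz n)).card : ℕ) : ℤ) ≤ 4 * m + 2 := by
        rw [← h3]
        exact_mod_cast h2
      have h5 : ((symmDiff (Fz n) (a • Fz n)).card : ℝ) ≤ 4 * m + 2 := by exact_mod_cast h4
      rw [card_Fz, mul_one_div]
      push_cast
      gcongr
    refine squeeze_zero (fun n => by positivity) hcard ?_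
    have := (tendsto_one_div_add_atTop_nhds_zero_nat (𝕜 := ℝ)).const_mul (4 * (m : ℝ) + 2)
    simpa using this
  · -- tempered
    have hsub : ((Finset.range n).biUnion fun k => (Fz k)⁻¹ * Fz n) ⊆
        (Finset.Icc (-(n : ℤ)) n).image Multiplicative.ofAdd := by
      intro x hx
      rw [Finset.mem_biUnion] at hx
      obtain ⟨k, hk, hx⟩ := hx
      rw [Finset.mem_mul] at hx
      obtain ⟨y, hy, z, hz, rfl⟩ := hx
      rw [Finset.mem_inv'] at hy
      rw [mem_Fz] at hy hz
      rw [toAdd_inv] at hy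
      have hk' := Finset.mem_range.1 hk
      refine Finset.mem_image.2 ⟨Multiplicative.toAdd (y * z), Finset.mem_Icc.2 ?_, rfl⟩
      rw [toAdd_mul]
      omega
    have h1 := Finset.card_le_card hsub
    rw [card_image_Icc] at h1
    have h2 : ((n : ℤ) + 1 - -(n : ℤ)).toNat = 2 * n + 1 := by omega
    rw [h2] at h1
    rw [card_Fz]
    have h3 : ((((Finset.range n).biUnion fun k => (Fz k)⁻¹ * Fz n).card : ℕ) : ℝ) ≤ 2 * n + 1 := by
      exact_mod_cast h1
    push_cast
    linarith
  · -- growth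
    have h1 : Tendsto (fun x : ℝ => x / Real.log x) atTop atTop := by
      have h2 : Tendsto (fun x : ℝ => Real.log x / x) atTop (𝓝[>] 0) := by
        refine tendsto_nhdsWithin_iff.2 ⟨?_, ?_⟩
        · simpa using Real.isLittleO_log_id_atTop.tendsto_div_nhds_zero
        · filter_upwards [eventually_gt_atTop 1] with x hx
          exact div_pos (Real.log_pos hx) (by linarith)
      have h3 := h2.inv_tendsto_nhdsGT_zero
      refine h3.congr fun x => ?_
      simp
    have h4 := h1.comp (tendsto_natCast_atTop_atTop (R := ℝ))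
    refine tendsto_atTop_mono' _ ?_ h4
    filter_upwards [eventually_ge_atTop 2] with n hn
    have : 0 < Real.log n := Real.log_pos (by exact_mod_cast hn)
    rw [card_Fz]
    simp only [Function.comp]
    push_cast
    gcongr
    linarith

/-! ### The system -/

/-- The Cantor space, seen as the full shift over the alphabet of `0`-`1` arrays through an
enumeration of `ℤ × ℕ × ℕ`. -/
def XX : Type := ℕ → Bool

noncomputable instance : MetricSpace XX := PiNat.metricSpace (E := fun _ : ℕ => Bool)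

instance : CompactSpace XX := inferInstanceAs (CompactSpace (ℕ → Bool))

/-- The enumeration. -/
def en : ℕ ≃ ℤ × ℕ × ℕ := (Denumerable.eqv (ℤ × ℕ × ℕ)).symm

/-- The shift of coordinates. -/
def sh (a : ℤ) (p : ℤ × ℕ × ℕ) : ℤ × ℕ × ℕ := (p.1 + a, p.2)

noncomputable instance : MulAction (Multiplicative ℤ) XX where
  smul g x := fun n => x (en.symm (sh (Multiplicative.toAdd g) (en n)))
  one_smul x := by
    funext n
    change x (en.symm (sh _ (en n))) = x n
    simp [sh]
  mul_smul g h x := by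
    funext n
    change x (en.symm (sh _ (en n))) = x (en.symm (sh _ (en (en.symm (sh _ (en n))))))
    simp only [sh, toAdd_mul, Equiv.apply_symm_apply]
    congr 3
    ring

theorem smul_apply (g : Multiplicative ℤ) (x : XX) (n : ℕ) :
    (g • x) n = x (en.symm (sh (Multiplicative.toAdd g) (en n))) := rfl

instance : ContinuousConstSMul (Multiplicative ℤ) XX where
  continuous_const_smul g := by
    have : Continuous (fun (x : ℕ → Bool) (n : ℕ) =>
        x (en.symm (sh (Multiplicative.toAdd g) (en n)))) :=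
      continuous_pi fun n => continuous_apply _
    exact this

/-- The point with parameter `y`. -/
def pt (y : ℕ → Bool) : XX := fun n =>
  if 0 ≤ (en n).1 ∧ (en n).2.2 < 2 ^ (en n).2.1 then
    y (2 ^ (en n).2.1 * (en n).1.toNat + (en n).2.2) else false

theorem continuous_pt : Continuous pt := by
  have : Continuous (fun (y : ℕ → Bool) (n : ℕ) =>
      if 0 ≤ (en n).1 ∧ (en n).2.2 < 2 ^ (en n).2.1 then
        y (2 ^ (en n).2.1 * (en n).1.toNat + (en n).2.2) else false) := by
    refine continuous_pi fun n => ?_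
    split_ifs
    · exact continuous_apply _
    · exact continuous_const
  exact this

/-- Two points of `K` in one Bowen ball of small radius agree on a long interval. -/
theorem lemA (k : ℕ) : ∃ ε : ℝ, 0 < ε ∧ ∀ (n : ℕ) (x : XX) (y y' : ℕ → Bool),
    pt y ∈ ball' (Fz n) x ε → pt y' ∈ ball' (Fz n) x ε → ∀ j < 2 ^ k * (n + 1), y j = y' j := by
  set m : ℕ := (Finset.range (2 ^ k)).sup fun r => en.symm (0, k, r) with hm
  refine ⟨(1 / 2) ^ m, by positivity, fun n x y y' hy hy' j hj => ?_⟩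
  have hr : j % 2 ^ k < 2 ^ k := Nat.mod_lt _ (by positivity)
  have ht : j / 2 ^ k ≤ n := by
    have := Nat.div_lt_of_lt_mul hj
    omega
  have hle : en.symm (0, k, j % 2 ^ k) ≤ m :=
    Finset.le_sup (f := fun r => en.symm (0, k, r)) (Finset.mem_range.2 hr)
  have key : ∀ z : ℕ → Bool, pt z ∈ ball' (Fz n) x ((1 / 2) ^ m) →
      (Multiplicative.ofAdd ((j / 2 ^ k : ℕ) : ℤ) • x) (en.symm (0, k, j % 2 ^ k)) = z j := by
    intro z hz
    have h1 := hz (Multiplicative.ofAdd ((j / 2 ^ k : ℕ) : ℤ))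
      (mem_Fz.2 ⟨Int.natCast_nonneg _, Int.ofNat_le.2 ht⟩)
    have h2 := PiNat.apply_eq_of_dist_lt (E := fun _ : ℕ => Bool) h1 hle
    rw [h2]
    change pt z (en.symm (sh _ (en (en.symm (0, k, j % 2 ^ k))))) = z j
    have h3 : ((j / 2 ^ k : ℕ) : ℤ).toNat = j / 2 ^ k := Int.toNat_natCast _
    simp only [Equiv.apply_symm_apply, sh, toAdd_ofAdd, pt, zero_add]
    rw [if_pos ⟨Int.natCast_nonneg _, hr⟩, h3, Nat.div_add_mod]
  rw [← key y hy, ← key y' hy']

/-- Two points of `K` which agree on a long interval are in one Bowen ball. -/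
theorem lemB (ε : ℝ) (hε : 0 < ε) : ∃ w : ℕ, ∀ (n : ℕ) (y y' : ℕ → Bool),
    (∀ j < 2 ^ w * (n + w + 1), y j = y' j) → pt y' ∈ ball' (Fz n) (pt y) ε := by
  obtain ⟨m, hm⟩ := exists_pow_lt_of_lt_one hε (show (1 / 2 : ℝ) < 1 by norm_num)
  set w : ℕ := (Finset.range m).sup fun i => (en i).1.toNat + (en i).2.1 with hw
  refine ⟨w, fun n y y' h g hg => ?_⟩
  rw [mem_Fz] at hg
  refine lt_of_le_of_lt ?_ hm
  refine (PiNat.mem_cylinder_iff_dist_le (E := fun _ : ℕ => Bool)).1 ?_
  rw [PiNat.mem_cylinder_iff]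
  intro i hi
  have hwi : (en i).1.toNat + (en i).2.1 ≤ w :=
    Finset.le_sup (f := fun i => (en i).1.toNat + (en i).2.1) (Finset.mem_range.2 hi)
  rw [smul_apply, smul_apply]
  simp only [pt, Equiv.apply_symm_apply, sh]
  split_ifs with hc
  · refine h _ ?_
    have h1 : ((en i).1 + Multiplicative.toAdd g).toNat + 1 ≤ n + w + 1 := by omega
    have h2 : (2 : ℕ) ^ (en i).2.1 ≤ 2 ^ w := Nat.pow_le_pow_right (by norm_num) (by omega)
    calc 2 ^ (en i).2.1 * ((en i).1 + Multiplicative.toAdd g).toNat + (en i).2.2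
        < 2 ^ (en i).2.1 * ((en i).1 + Multiplicative.toAdd g).toNat + 2 ^ (en i).2.1 := by
          have := hc.2
          omega
      _ = 2 ^ (en i).2.1 * (((en i).1 + Multiplicative.toAdd g).toNat + 1) := by ring
      _ ≤ 2 ^ w * (n + w + 1) := Nat.mul_le_mul h2 h1
  · rfl

/-- The comparison of scales. -/
theorem lemC (ε : ℝ) (hε : 0 < ε) (i : ℕ) : ∃ ε' : ℝ, 0 < ε' ∧ ∀ Z : Set XX, Z ⊆ range pt →
    ∀ s : ℝ, coverLim Fz Z ε s ≤ coverLim Fz Z ε' (2 ^ i * s) := by
  obtain ⟨w, hw⟩ := lemB ε hε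
  obtain ⟨ε', hε', hA⟩ := lemA (w + 1 + i)
  refine ⟨ε', hε', fun Z hZ s => ?_⟩
  unfold coverLim
  refine iSup_le fun N => ?_
  refine le_trans ?_ (le_iSup _ (max N w))
  unfold coverSum
  refine le_iInf fun I => le_iInf fun hI => le_iInf fun x => le_iInf fun n => le_iInf fun hn =>
    le_iInf fun hcov => ?_
  -- the balls which meet `Z`
  set J : Set I := {a | (Z ∩ ball' (Fz (n a)) (x a) ε').Nonempty} with hJ
  have hch : ∀ a : J, ∃ y : ℕ → Bool, pt y ∈ Z ∧ pt y ∈ ball' (Fz (n a)) (x a) ε' := by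
    rintro ⟨a, ha⟩
    obtain ⟨z, hz, hz'⟩ := ha
    obtain ⟨y, rfl⟩ := hZ hz
    exact ⟨y, hz, hz'⟩
  choose y hyZ hyb using hch
  have : Countable I := hI
  refine iInf_le_of_le (J : Type) (iInf_le_of_le (inferInstance : Countable J)
    (iInf_le_of_le (fun a => pt (y a)) (iInf_le_of_le (fun a => 2 ^ i * (n a + 1) - 1)
    (iInf_le_of_le ?_ (iInf_le_of_le ?_ ?_)))))
  · intro a
    have h1 : max N w ≤ n a := hn a
    have h2 : 1 * (n a + 1) ≤ 2 ^ i * (n a + 1) := Nat.mul_le_mul Nat.one_le_two_pow le_rfl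
    change N ≤ 2 ^ i * (n a + 1) - 1
    have h3 : N ≤ n a := (le_max_left _ _).trans h1
    omega
  · intro z hz
    obtain ⟨a, ha⟩ := mem_iUnion.1 (hcov hz)
    obtain ⟨y', rfl⟩ := hZ hz
    refine mem_iUnion.2 ⟨⟨a, ⟨_, hz, ha⟩⟩, ?_⟩
    refine hw _ _ _ fun j hj => ?_
    refine hA (n a) (x a) _ _ (hyb ⟨a, ⟨_, hz, ha⟩⟩) ha j (hj.trans_le ?_)
    have h1 : max N w ≤ n a := hn a
    have h2 : 1 * (n a + 1) ≤ 2 ^ i * (n a + 1) := Nat.mul_le_mul Nat.one_le_two_pow le_rfl
    have h3 : 2 ^ i * (n a + 1) - 1 + w + 1 ≤ 2 * (2 ^ i * (n a + 1)) := by omega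
    calc 2 ^ w * (2 ^ i * (n a + 1) - 1 + w + 1) ≤ 2 ^ w * (2 * (2 ^ i * (n a + 1))) :=
          Nat.mul_le_mul le_rfl h3
      _ = 2 ^ (w + 1 + i) * (n a + 1) := by ring
  · calc ∑' a : J, ENNReal.ofReal (Real.exp (-(s * ((Fz (2 ^ i * (n a + 1) - 1)).card : ℝ))))
        = ∑' a : J, ENNReal.ofReal (Real.exp (-(2 ^ i * s * ((Fz (n a)).card : ℝ)))) := by
          refine tsum_congr fun a => ?_
          have h2 : 1 * (n a + 1) ≤ 2 ^ i * (n a + 1) := Nat.mul_le_mul Nat.one_le_two_pow le_rfl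
          have h3 : (Fz (2 ^ i * (n a + 1) - 1)).card = 2 ^ i * (Fz (n a)).card := by
            rw [card_Fz, card_Fz]
            omega
          rw [h3]
          congr 3
          push_cast
          ring
      _ ≤ _ := ENNReal.tsum_comp_le_tsum_of_injective Subtype.val_injective
          (fun a => ENNReal.ofReal (Real.exp (-(2 ^ i * s * ((Fz (n a)).card : ℝ)))))

theorem lemC' (ε : ℝ) (hε : 0 < ε) (i : ℕ) (Z : Set XX) (hZ : Z ⊆ range pt) :
    2 ^ i * bowenAt Fz Z ε ≤ bowenEntropy Fz Z := by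
  obtain ⟨ε', hε', h⟩ := lemC ε hε i
  refine le_trans ?_ (le_iSup₂ (f := fun (ε : ℝ) (_ : 0 < ε) => bowenAt Fz Z ε) ε' hε')
  refine le_iInf fun s => le_iInf fun hs => ?_
  have h1 : coverLim Fz Z ε ((s / 2 ^ i : ℝ≥0) : ℝ) = 0 := by
    refine le_antisymm ((h Z hZ _).trans ?_) bot_le
    rw [← hs]
    apply le_of_eq
    congr 1
    push_cast
    field_simp
  have h2 : bowenAt Fz Z ε ≤ ((s / 2 ^ i : ℝ≥0) : ℝ≥0∞) :=
    iInf_le_of_le (s / 2 ^ i) (iInf_le_of_le h1 le_rfl)
  calc 2 ^ i * bowenAt Fz Z ε ≤ 2 ^ i * ((s / 2 ^ i : ℝ≥0) : ℝ≥0∞) := by gcongr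
    _ = ((2 ^ i * (s / 2 ^ i) : ℝ≥0) : ℝ≥0∞) := by push_cast; rfl
    _ = (s : ℝ≥0∞) := by
        congr 1
        field_simp

theorem dichotomy (Z : Set XX) (hZ : Z ⊆ range pt) :
    bowenEntropy Fz Z = 0 ∨ bowenEntropy Fz Z = ⊤ := by
  by_cases htop : bowenEntropy Fz Z = ⊤
  · exact Or.inr htop
  refine Or.inl ?_
  unfold bowenEntropy
  rw [ENNReal.iSup_eq_zero]
  intro ε
  rw [ENNReal.iSup_eq_zero]
  intro hε
  by_contra hne
  obtain ⟨n, hn⟩ := ENNReal.exists_nat_mul_gt hne htop
  have h1 := lemC' ε hε n Z hZ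
  have h2 : (n : ℝ≥0∞) ≤ 2 ^ n := by
    exact_mod_cast (Nat.lt_two_pow_self).le
  exact absurd (hn.trans_le ((mul_le_mul_left h2 _).trans h1)) (lt_irrefl _)

/-! ### The entropy of `K` is not zero -/

/-- The fair coin. -/
noncomputable def coin : Measure Bool := (PMF.uniformOfFintype Bool).toMeasure

instance : IsProbabilityMeasure coin := by unfold coin; infer_instance

theorem coin_singleton (b : Bool) : coin {b} = 2⁻¹ := by
  unfold coin
  rw [PMF.toMeasure_apply_singleton _ _ (measurableSet_singleton b), PMF.uniformOfFintype_apply]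
  simp

/-- The coin tossing measure. -/
noncomputable def mu : Measure (ℕ → Bool) := Measure.infinitePi fun _ => coin

instance : IsProbabilityMeasure mu := by unfold mu; infer_instance

theorem mu_le (ε : ℝ) (h : ∀ (n : ℕ) (x : XX) (y y' : ℕ → Bool),
    pt y ∈ ball' (Fz n) x ε → pt y' ∈ ball' (Fz n) x ε → ∀ j < 2 ^ 0 * (n + 1), y j = y' j)
    (n : ℕ) (x : XX) : mu (pt ⁻¹' (ball' (Fz n) x ε)) ≤ 2⁻¹ ^ (n + 1) := by
  rcases Set.eq_empty_or_nonempty (pt ⁻¹' (ball' (Fz n) x ε)) with h0 | ⟨y, hy⟩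
  · rw [h0]; simp
  · have hsub : pt ⁻¹' (ball' (Fz n) x ε) ⊆
        Set.pi (Finset.range (n + 1) : Finset ℕ) (fun j => ({y j} : Set Bool)) := by
      intro y' hy' j hj
      have hj' : j < n + 1 := by simpa using hj
      exact (h n x y y' hy hy' j (by simpa using hj')).symm
    refine (measure_mono hsub).trans ?_
    unfold mu
    rw [Measure.infinitePi_pi _ (fun i _ => measurableSet_singleton _)]
    rw [Finset.prod_congr rfl (fun i _ => coin_singleton (y i))]
    simp

theorem entropy_ne_zero : bowenEntropy Fz (range pt) ≠ 0 := by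
  obtain ⟨ε, hε, h⟩ := lemA 0
  have hlog : 0 < Real.log 2 := Real.log_pos (by norm_num)
  have key : ∀ s : ℝ≥0, coverLim Fz (range pt) ε s = 0 → Real.log 2 ≤ (s : ℝ) := by
    intro s hs
    by_contra hlt
    rw [not_le] at hlt
    have h1 : (1 : ℝ≥0∞) ≤ coverSum Fz (range pt) 0 ε s := by
      unfold coverSum
      refine le_iInf fun I => le_iInf fun hI => le_iInf fun x => le_iInf fun n => le_iInf fun hn =>
        le_iInf fun hcov => ?_
      have hU : (⋃ i, pt ⁻¹' (ball' (Fz (n i)) (x i) ε)) = univ := by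
        rw [eq_univ_iff_forall]
        intro y
        obtain ⟨i, hi⟩ := mem_iUnion.1 (hcov (mem_range_self y))
        exact mem_iUnion.2 ⟨i, hi⟩
      calc (1 : ℝ≥0∞) = mu univ := measure_univ.symm
        _ = mu (⋃ i, pt ⁻¹' (ball' (Fz (n i)) (x i) ε)) := by rw [hU]
        _ ≤ ∑' i, mu (pt ⁻¹' (ball' (Fz (n i)) (x i) ε)) := measure_iUnion_le _
        _ ≤ ∑' i, ENNReal.ofReal (Real.exp (-((s : ℝ) * ((Fz (n i)).card : ℝ)))) := by
          refine ENNReal.tsum_le_tsum fun i => (mu_le ε h (n i) (x i)).trans ?_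
          have h2 : (2⁻¹ : ℝ≥0∞) ^ (n i + 1) = ENNReal.ofReal ((2⁻¹ : ℝ) ^ (n i + 1)) := by
            rw [ENNReal.ofReal_pow (by norm_num), ENNReal.ofReal_inv_of_pos (by norm_num)]
            norm_num
          rw [h2]
          apply ENNReal.ofReal_le_ofReal
          rw [card_Fz]
          have h3 : (2⁻¹ : ℝ) = Real.exp (-Real.log 2) := by
            rw [Real.exp_neg, Real.exp_log (by norm_num)]
          rw [h3, ← Real.exp_nat_mul]
          apply Real.exp_le_exp.2
          push_cast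
          nlinarith [(Nat.cast_nonneg (n i) : (0 : ℝ) ≤ (n i : ℝ))]
    have h2 : coverSum Fz (range pt) 0 ε s ≤ coverLim Fz (range pt) ε s :=
      le_iSup (fun N => coverSum Fz (range pt) N ε s) 0
    rw [hs] at h2
    exact absurd (h1.trans h2) (by simp)
  have h3 : ENNReal.ofReal (Real.log 2) ≤ bowenAt Fz (range pt) ε := by
    refine le_iInf fun s => le_iInf fun hs => ?_
    rw [← ENNReal.ofReal_coe_nnreal]
    exact ENNReal.ofReal_le_ofReal (key s hs)
  have h4 : bowenAt Fz (range pt) ε ≤ bowenEntropy Fz (range pt) :=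
    le_iSup₂ (f := fun (ε : ℝ) (_ : 0 < ε) => bowenAt Fz (range pt) ε) ε hε
  have h5 : 0 < ENNReal.ofReal (Real.log 2) := ENNReal.ofReal_pos.2 hlog
  exact (h5.trans_le (h3.trans h4)).ne'

theorem entropy_top : bowenEntropy Fz (range pt) = ⊤ :=
  (dichotomy _ subset_rfl).resolve_left entropy_ne_zero

/-- **Part (c) of the problem is false**: there is a homeomorphism of a compact metric space (an
action of `Z`) which is not D-hereditarily lowerable along the intervals `F_n = {0, ..., n}`.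
More precisely some nonempty compact `K` has infinite Bowen entropy, while the Bowen entropy of
every subset of `K` is `0` or infinity. -/
theorem result : ∃ (X : Type) (_ : MetricSpace X) (_ : CompactSpace X)
    (_ : MulAction (Multiplicative ℤ) X) (_ : ContinuousConstSMul (Multiplicative ℤ) X),
    Admissible Fz ∧
    (¬ DHereditarilyLowerable (X := X) Fz) ∧
    ∃ K : Set X, K.Nonempty ∧ IsCompact K ∧ bowenEntropy Fz K = ⊤ ∧
      ∀ Z : Set X, Z ⊆ K → bowenEntropy Fz Z = 0 ∨ bowenEntropy Fz Z = ⊤ := by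
  refine ⟨XX, inferInstance, inferInstance, inferInstance, inferInstance, admissible_Fz, ?_,
    range pt, range_nonempty pt, isCompact_range continuous_pt, entropy_top, dichotomy⟩
  intro H
  have hcomp : IsCompact (range pt) := isCompact_range continuous_pt
  obtain ⟨K', hK', h1⟩ := H (range pt) (range_nonempty pt) hcomp.isClosed.analyticSet 1
    (by rw [entropy_top]; exact le_top)
  rcases dichotomy K' hK' with h | h
  · rw [h] at h1
    exact zero_ne_one h1
  · rw [h] at h1
    exact ENNReal.top_ne_one h1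

end Pool.Agent.Results.MP_4cf0b2_an.NotHereditarilyLowerable
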